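import Pool.Agent.TH722.FI.Defs

/-!
Entropy of countable labels.
-/

set_option autoImplicit false
set_option linter.unusedSectionVars false
set_option linter.unusedSimpArgs false

namespace Pool.Agent.TH480.FI

open MeasureTheory Set Filter Pool.Agent.TH722.FI
open scoped Topology ENNReal

variable {X Y : Type*} [MeasurableSpace X] [MeasurableSpace Y] {μ : Measure X} [IsProbabilityMeasure μ]
  {α β α' β' γ κ : Type*}

section tools

lemma meas_set {m : X → γ} (hm : ∀ c, MeasurableSet {x | m x = c}) (hc : (range m).Countable)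
    (S : Set γ) : MeasurableSet {x | m x ∈ S} := by
  have e : {x | m x ∈ S} = ⋃ c ∈ range m ∩ S, {x | m x = c} := by
    ext x
    simp only [mem_ofPred_eq, mem_iUnion, exists_prop]
    constructor
    · intro h
      exact ⟨m x, ⟨⟨x, rfl⟩, h⟩, rfl⟩
    · rintro ⟨c, ⟨_, h2⟩, h3⟩
      rw [h3]; exact h2
  rw [e]
  exact MeasurableSet.biUnion (hc.mono inter_subset_left) fun c _ => hm c

lemma meas_comp {δ : Type*} [MeasurableSpace δ] {m : X → γ} (hm : ∀ c, MeasurableSet {x | m x = c})
    (hc : (range m).Countable) (f : γ → δ) : Measurable (fun x => f (m x)) := by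
  intro S _
  exact meas_set hm hc (f ⁻¹' S)

/-- the integral of a function of a label, version for nonnegative functions -/
lemma lint {ν : Measure X} {m : X → γ} (hm : ∀ c, MeasurableSet {x | m x = c})
    (hc : (range m).Countable) (D : Set X) (hD : MeasurableSet D) (g : γ → ℝ≥0∞) :
    ∫⁻ x in D, g (m x) ∂ν = ∑' c, g c * ν {y | y ∈ D ∧ m y = c} := by
  have hsub : Function.support (fun c => g c * ν {y | y ∈ D ∧ m y = c}) ⊆ range m := by
    intro c hc'
    by_contra h
    apply hc'
    have : {y | y ∈ D ∧ m y = c} = ∅ := by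
      ext y
      simp only [mem_ofPred_eq, mem_empty_iff_false, iff_false, not_and]
      intro _ h2
      exact h ⟨y, h2⟩
    simp [this]
  rw [← tsum_subtype_eq_of_support_subset hsub]
  have : Countable (range m) := hc.to_subtype
  have e : D = ⋃ c : range m, {y | y ∈ D ∧ m y = c} := by
    ext x
    simp only [mem_iUnion, mem_ofPred_eq]
    constructor
    · intro h
      exact ⟨⟨m x, ⟨x, rfl⟩⟩, h, rfl⟩
    · rintro ⟨_, h, _⟩
      exact h
  have hms : ∀ c : range m, MeasurableSet {y | y ∈ D ∧ m y = c} := fun c => hD.inter (hm c)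
  have hdis : Pairwise (Function.onFun Disjoint fun c : range m => {y | y ∈ D ∧ m y = c}) := by
    intro c d hcd
    rw [Function.onFun, Set.disjoint_left]
    rintro x ⟨_, h1⟩ ⟨_, h2⟩
    apply hcd
    ext
    rw [← h1, ← h2]
  conv_lhs => rw [e]
  rw [lintegral_iUnion hms hdis]
  refine tsum_congr fun c => ?_
  rw [setLIntegral_congr_fun (g := fun _ => g c) (hms c) (fun x hx => by rw [hx.2]),
    setLIntegral_const]

lemma summable_of_tsum_ne_top {f : γ → ℝ} (hf : ∀ c, 0 ≤ f c)
    (h : ∑' c, ENNReal.ofReal (f c) ≠ ∞) : Summable f := by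
  have h1 := ENNReal.summable_toReal h
  refine h1.congr fun c => ?_
  rw [ENNReal.toReal_ofReal (hf c)]

lemma tsum_ne_top_of_summable {f : γ → ℝ} (hs : Summable f) :
    ∑' c, ENNReal.ofReal (f c) ≠ ∞ := hs.tsum_ofReal_ne_top

lemma summable_le {f : γ → ℝ} (hf : ∀ c, 0 ≤ f c) {S : ℝ} (hS : 0 ≤ S)
    (h : ∑' c, ENNReal.ofReal (f c) ≤ ENNReal.ofReal S) : Summable f ∧ ∑' c, f c ≤ S := by
  have h1 : Summable f := summable_of_tsum_ne_top hf (ne_top_of_le_ne_top ENNReal.ofReal_ne_top h)
  refine ⟨h1, ?_⟩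
  rw [← ENNReal.ofReal_tsum_of_nonneg hf h1] at h
  exact (ENNReal.ofReal_le_ofReal_iff hS).1 h

/-- integrability of a function of a label -/
lemma integrableOn_iff {m : X → γ} (hm : ∀ c, MeasurableSet {x | m x = c})
    (hc : (range m).Countable) (D : Set X) (hD : MeasurableSet D) (f : γ → ℝ) :
    IntegrableOn (fun x => f (m x)) D μ ↔
      Summable (fun c => f c * μ.real {y | y ∈ D ∧ m y = c}) := by
  have hmeas : AEStronglyMeasurable (fun x => f (m x)) (μ.restrict D) :=
    (meas_comp hm hc f).aestronglyMeasurable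
  have key : ∫⁻ x in D, ‖f (m x)‖ₑ ∂μ =
      ∑' c, ENNReal.ofReal |f c * μ.real {y | y ∈ D ∧ m y = c}| := by
    rw [lint hm hc D hD (fun c => ‖f c‖ₑ)]
    refine tsum_congr fun c => ?_
    rw [abs_mul, ENNReal.ofReal_mul (abs_nonneg _), abs_of_nonneg measureReal_nonneg,
      Measure.real, ENNReal.ofReal_toReal (measure_ne_top _ _), ← Real.norm_eq_abs,
      ofReal_norm]
  constructor
  · intro h
    have h2 := h.2
    rw [HasFiniteIntegral, key] at h2
    exact (summable_of_tsum_ne_top (fun c => abs_nonneg _) h2.ne).of_abs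
  · intro h
    refine ⟨hmeas, ?_⟩
    rw [HasFiniteIntegral, key]
    exact (tsum_ne_top_of_summable h.abs).lt_top

/-- the integral of a function of a label -/
lemma integral_eq {m : X → γ} (hm : ∀ c, MeasurableSet {x | m x = c})
    (hc : (range m).Countable) (D : Set X) (hD : MeasurableSet D) (f : γ → ℝ) :
    ∫ x in D, f (m x) ∂μ = ∑' c, f c * μ.real {y | y ∈ D ∧ m y = c} := by
  by_cases hi : IntegrableOn (fun x => f (m x)) D μ
  · have hsub : Function.support (fun c => f c * μ.real {y | y ∈ D ∧ m y = c}) ⊆ range m := by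
      intro c hc'
      by_contra h
      apply hc'
      have : {y | y ∈ D ∧ m y = c} = ∅ := by
        ext y
        simp only [mem_ofPred_eq, mem_empty_iff_false, iff_false, not_and]
        intro _ h2
        exact h ⟨y, h2⟩
      simp [this]
    rw [← tsum_subtype_eq_of_support_subset hsub]
    have : Countable (range m) := hc.to_subtype
    have e : D = ⋃ c : range m, {y | y ∈ D ∧ m y = c} := by
      ext x
      simp only [mem_iUnion, mem_ofPred_eq]
      constructor
      · intro h
        exact ⟨⟨m x, ⟨x, rfl⟩⟩, h, rfl⟩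
      · rintro ⟨_, h, _⟩
        exact h
    have hms : ∀ c : range m, MeasurableSet {y | y ∈ D ∧ m y = c} := fun c => hD.inter (hm c)
    have hdis : Pairwise (Function.onFun Disjoint fun c : range m => {y | y ∈ D ∧ m y = c}) := by
      intro c d hcd
      rw [Function.onFun, Set.disjoint_left]
      rintro x ⟨_, h1⟩ ⟨_, h2⟩
      apply hcd
      ext
      rw [← h1, ← h2]
    have hi' : IntegrableOn (fun x => f (m x)) (⋃ c : range m, {y | y ∈ D ∧ m y = c}) μ := by
      rw [← e]; exact hi
    conv_lhs => rw [e]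
    rw [integral_iUnion hms hdis hi']
    refine tsum_congr fun c => ?_
    rw [setIntegral_congr_fun (g := fun _ => f c) (hms c) (fun x hx => by rw [hx.2]),
      setIntegral_const, smul_eq_mul, mul_comm]
  · rw [integral_undef hi, tsum_eq_zero_of_not_summable]
    rwa [← integrableOn_iff hm hc D hD f]

/-- almost every point lies in a cell of positive mass -/
lemma ae_pos {m : X → γ} (hm : ∀ c, MeasurableSet {x | m x = c})
    (hc : (range m).Countable) (D : Set X) (hD : MeasurableSet D) :
    ∀ᵐ x ∂(μ.restrict D), 0 < μ.real {y | y ∈ D ∧ m y = m x} := by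
  rw [ae_restrict_iff' hD]
  have h1 : ∀ c ∈ range m, ∀ᵐ x ∂μ, x ∈ D → m x = c → 0 < μ.real {y | y ∈ D ∧ m y = c} := by
    intro c _
    by_cases h : μ {y | y ∈ D ∧ m y = c} = 0
    · have : ∀ᵐ x ∂μ, x ∉ {y | y ∈ D ∧ m y = c} := measure_eq_zero_iff_ae_notMem.1 h
      filter_upwards [this] with x hx h1 h2
      exact absurd ⟨h1, h2⟩ hx
    · refine Eventually.of_forall fun x _ _ => ?_
      exact ENNReal.toReal_pos h (measure_ne_top _ _)
  have h2 := (ae_ball_iff hc).2 h1
  filter_upwards [h2] with x hx hxD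
  exact hx (m x) ⟨x, rfl⟩ hxD rfl

lemma real_le_one (S : Set X) : μ.real S ≤ 1 := measureReal_le_one

lemma sum_P {m : X → γ} (hm : ∀ c, MeasurableSet {x | m x = c})
    (hc : (range m).Countable) (D : Set X) (hD : MeasurableSet D) :
    Summable (fun c => μ.real {y | y ∈ D ∧ m y = c}) ∧
      ∑' c, μ.real {y | y ∈ D ∧ m y = c} = μ.real D := by
  have h1 := (integrableOn_iff (μ := μ) hm hc D hD (fun _ => 1)).1 (integrable_const 1)
  have h2 := integral_eq (μ := μ) hm hc D hD (fun _ => 1)
  simp only [one_mul] at h1 h2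
  refine ⟨h1, ?_⟩
  rw [← h2]
  simp

lemma ratio_int {m : X → γ} (hm : ∀ c, MeasurableSet {x | m x = c})
    (hc : (range m).Countable) (D : Set X) (hD : MeasurableSet D) (Q : γ → ℝ)
    (hQ : ∀ c, 0 ≤ Q c) (hQs : Summable Q) :
    IntegrableOn (fun x => Q (m x) / μ.real {y | y ∈ D ∧ m y = m x}) D μ ∧
      ∫ x in D, Q (m x) / μ.real {y | y ∈ D ∧ m y = m x} ∂μ ≤ ∑' c, Q c := by
  have hle : ∀ c, Q c / μ.real {y | y ∈ D ∧ m y = c} * μ.real {y | y ∈ D ∧ m y = c} ≤ Q c := by
    intro c
    by_cases h : μ.real {y | y ∈ D ∧ m y = c} = 0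
    · rw [h, mul_zero]; exact hQ c
    · rw [div_mul_cancel₀ _ h]
  have h0 : ∀ c, 0 ≤ Q c / μ.real {y | y ∈ D ∧ m y = c} * μ.real {y | y ∈ D ∧ m y = c} :=
    fun c => mul_nonneg (div_nonneg (hQ c) measureReal_nonneg) measureReal_nonneg
  have hs : Summable (fun c => Q c / μ.real {y | y ∈ D ∧ m y = c} *
      μ.real {y | y ∈ D ∧ m y = c}) := Summable.of_nonneg_of_le h0 hle hQs
  refine ⟨(integrableOn_iff hm hc D hD (fun c => Q c / μ.real {y | y ∈ D ∧ m y = c})).2 hs, ?_⟩
  rw [integral_eq hm hc D hD (fun c => Q c / μ.real {y | y ∈ D ∧ m y = c})]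
  exact hs.tsum_le_tsum hle hQs

theorem gibbs (D : Set X) (hD : MeasurableSet D) (m : X → γ) (hm : ∀ c, MeasurableSet {x | m x = c})
    (hc : (range m).Countable) (Q : γ → ℝ) (hQ : ∀ c, 0 ≤ Q c) (hQs : Summable Q)
    (hpos : ∀ᵐ x ∂(μ.restrict D), 0 < Q (m x))
    (hint : IntegrableOn (fun x => Real.log (Q (m x) / μ.real {y | y ∈ D ∧ m y = m x})) D μ) :
    ∫ x in D, Real.log (Q (m x) / μ.real {y | y ∈ D ∧ m y = m x}) ∂μ ≤ ∑' c, Q c - μ.real D := by
  obtain ⟨h1, h2⟩ := ratio_int (μ := μ) hm hc D hD Q hQ hQs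
  have h3 : ∫ x in D, Real.log (Q (m x) / μ.real {y | y ∈ D ∧ m y = m x}) ∂μ ≤
      ∫ x in D, (Q (m x) / μ.real {y | y ∈ D ∧ m y = m x} - 1) ∂μ := by
    refine integral_mono_ae hint (h1.sub (integrable_const 1)) ?_
    filter_upwards [hpos, ae_pos hm hc D hD] with x hx1 hx2
    exact Real.log_le_sub_one_of_pos (div_pos hx1 hx2)
  have h4 : ∫ x in D, (Q (m x) / μ.real {y | y ∈ D ∧ m y = m x} - 1) ∂μ =
      ∫ x in D, Q (m x) / μ.real {y | y ∈ D ∧ m y = m x} ∂μ - μ.real D := by
    rw [integral_sub h1 (integrable_const 1)]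
    simp
  linarith

/-- integrability of the logarithm of the mass -/
lemma gibbs_int {D : Set X} (hD : MeasurableSet D) {m : X → γ}
    (hm : ∀ c, MeasurableSet {x | m x = c}) (hc : (range m).Countable) (Q : γ → ℝ)
    (hQ : ∀ c, 0 ≤ Q c) (hQs : Summable Q) (hpos : ∀ᵐ x ∂(μ.restrict D), 0 < Q (m x))
    (hint : IntegrableOn (fun x => Real.log (Q (m x))) D μ) :
    IntegrableOn (fun x => Real.log (μ.real {y | y ∈ D ∧ m y = m x})) D μ := by
  obtain ⟨h1, _⟩ := ratio_int (μ := μ) hm hc D hD Q hQ hQs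
  refine Integrable.mono' (h1.add hint.abs)
    (meas_comp hm hc (fun c => Real.log (μ.real {y | y ∈ D ∧ m y = c}))).aestronglyMeasurable ?_
  filter_upwards [hpos, ae_pos hm hc D hD] with x hx1 hx2
  have h3 := Real.log_le_sub_one_of_pos (div_pos hx1 hx2)
  rw [Real.log_div hx1.ne' hx2.ne'] at h3
  have h4 : Real.log (μ.real {y | y ∈ D ∧ m y = m x}) ≤ 0 :=
    Real.log_nonpos measureReal_nonneg (real_le_one _)
  rw [Real.norm_eq_abs, abs_of_nonpos h4]
  have h5 := neg_abs_le (Real.log (Q (m x)))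
  simp only [Pi.add_apply]
  linarith

lemma meas_pair {a : X → α} {b : X → β} (ha : ∀ c, MeasurableSet {x | a x = c})
    (hb : ∀ c, MeasurableSet {x | b x = c}) (c : α × β) :
    MeasurableSet {x | (a x, b x) = c} := by
  have : {x | (a x, b x) = c} = {x | a x = c.1} ∩ {x | b x = c.2} := by
    ext x
    simp [Prod.ext_iff]
  rw [this]
  exact (ha c.1).inter (hb c.2)

lemma cnt_pair {a : X → α} {b : X → β} (ha : (range a).Countable)
    (hb : (range b).Countable) : (range (fun x => (a x, b x))).Countable := by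
  refine (ha.prod hb).mono ?_
  rintro _ ⟨x, rfl⟩
  exact ⟨⟨x, rfl⟩, ⟨x, rfl⟩⟩

lemma mass_nonneg (a : X → α) (x : X) : 0 ≤ mass μ a x := measureReal_nonneg

lemma mass_le_one (a : X → α) (x : X) : mass μ a x ≤ 1 := measureReal_le_one

lemma info_nonneg (a : X → α) (x : X) : 0 ≤ info μ a x := by
  unfold info
  have := Real.log_nonpos (mass_nonneg (μ := μ) a x) (mass_le_one a x)
  linarith

lemma ae_mass_pos {a : X → α} (hm : ∀ c, MeasurableSet {x | a x = c})
    (hc : (range a).Countable) : ∀ᵐ x ∂μ, 0 < mass μ a x := by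
  have h := ae_pos (μ := μ) hm hc univ MeasurableSet.univ
  rw [Measure.restrict_univ] at h
  filter_upwards [h] with x hx
  simpa [mass] using hx

lemma ae_mass_pos' {a : X → α} (hm : ∀ c, MeasurableSet {x | a x = c})
    (hc : (range a).Countable) (D : Set X) : ∀ᵐ x ∂(μ.restrict D), 0 < mass μ a x :=
  ae_restrict_of_ae (ae_mass_pos hm hc)

lemma meas_info {a : X → α} (hm : ∀ c, MeasurableSet {x | a x = c})
    (hc : (range a).Countable) : Measurable (info μ a) :=
  meas_comp hm hc (fun c => - Real.log (μ.real {y | a y = c}))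

lemma prod_sum {f : α → ℝ} {g : β → ℝ} (hf : ∀ c, 0 ≤ f c) (hg : ∀ c, 0 ≤ g c)
    (s1 : Summable f) (s2 : Summable g) :
    Summable (fun q : α × β => f q.1 * g q.2) ∧
      ∑' q : α × β, f q.1 * g q.2 = (∑' c, f c) * ∑' c, g c := by
  have hs : Summable (fun q : α × β => f q.1 * g q.2) :=
    Summable.mul_of_nonneg s1 s2 hf hg
  exact ⟨hs, (s1.tsum_mul_tsum s2 hs).symm⟩

lemma prod_P {a : X → α} {b : X → β} (ha : ∀ c, MeasurableSet {x | a x = c})
    (hac : (range a).Countable) (hb : ∀ c, MeasurableSet {x | b x = c})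
    (hbc : (range b).Countable) (D E : Set X) (hD : MeasurableSet D) (hE : MeasurableSet E) :
    Summable (fun q : α × β => μ.real {y | y ∈ D ∧ a y = q.1} * μ.real {y | y ∈ E ∧ b y = q.2}) ∧
    ∑' q : α × β, μ.real {y | y ∈ D ∧ a y = q.1} * μ.real {y | y ∈ E ∧ b y = q.2} =
      μ.real D * μ.real E := by
  have h1 := sum_P (μ := μ) ha hac D hD
  have h2 := sum_P (μ := μ) hb hbc E hE
  have h3 := prod_sum (f := fun c => μ.real {y | y ∈ D ∧ a y = c})
    (g := fun c => μ.real {y | y ∈ E ∧ b y = c})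
    (fun _ => measureReal_nonneg) (fun _ => measureReal_nonneg) h1.1 h2.1
  rw [h1.2, h2.2] at h3
  exact h3

lemma prod_P' {a : X → α} {b : X → β} (ha : ∀ c, MeasurableSet {x | a x = c})
    (hac : (range a).Countable) (hb : ∀ c, MeasurableSet {x | b x = c})
    (hbc : (range b).Countable) :
    Summable (fun q : α × β => μ.real {y | a y = q.1} * μ.real {y | b y = q.2}) ∧
    ∑' q : α × β, μ.real {y | a y = q.1} * μ.real {y | b y = q.2} = 1 := by
  have := prod_P (μ := μ) ha hac hb hbc univ univ MeasurableSet.univ MeasurableSet.univ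
  simpa using this

end tools

/-- integrability of the logarithm of the joint mass inside a set -/
lemma int_log_jmass {a : X → α} {b : X → β} (ha : IsLab μ a) (hb : IsLab μ b) (D : Set X)
    (hD : MeasurableSet D) : IntegrableOn (fun x => Real.log (jmass μ D a b x)) D μ := by
  obtain ⟨s, _⟩ := prod_P' (μ := μ) ha.meas ha.cnt hb.meas hb.cnt
  have hpos : ∀ᵐ x ∂(μ.restrict D), 0 < mass μ a x * mass μ b x := by
    filter_upwards [ae_mass_pos' ha.meas ha.cnt D, ae_mass_pos' hb.meas hb.cnt D] with x h1 h2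
    exact mul_pos h1 h2
  have hint : IntegrableOn (fun x => Real.log (mass μ a x * mass μ b x)) D μ := by
    have h1 : IntegrableOn (fun x => -(info μ a x) - info μ b x) D μ :=
      (ha.int.neg.sub hb.int).integrableOn
    refine h1.congr_fun_ae ?_
    filter_upwards [ae_mass_pos' ha.meas ha.cnt D, ae_mass_pos' hb.meas hb.cnt D] with x h1 h2
    rw [Real.log_mul h1.ne' h2.ne']
    unfold info
    ring
  have h := gibbs_int (μ := μ) hD (meas_pair ha.meas hb.meas) (cnt_pair ha.cnt hb.cnt)
    (fun q => μ.real {y | a y = q.1} * μ.real {y | b y = q.2})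
    (fun q => mul_nonneg measureReal_nonneg measureReal_nonneg) s hpos hint
  refine h.congr_fun_ae (Eventually.of_forall fun x => ?_)
  simp only [jmass, Prod.mk.injEq]

theorem lab_pair {a : X → α} {b : X → β} (ha : IsLab μ a) (hb : IsLab μ b) :
    IsLab μ (fun x => (a x, b x)) ∧ ent μ (fun x => (a x, b x)) ≤ ent μ a + ent μ b := by
  have hjm : ∀ x, jmass μ univ a b x = mass μ (fun x => (a x, b x)) x := by
    intro x
    simp [jmass, mass]
  have h1 := int_log_jmass ha hb univ MeasurableSet.univ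
  rw [integrableOn_univ] at h1
  have hI : Integrable (info μ (fun x => (a x, b x))) μ := by
    refine h1.neg.congr (Eventually.of_forall fun x => ?_)
    simp only [Pi.neg_apply, info, hjm]
  have hL : IsLab μ (fun x => (a x, b x)) :=
    ⟨meas_pair ha.meas hb.meas, cnt_pair ha.cnt hb.cnt, hI⟩
  refine ⟨hL, ?_⟩
  obtain ⟨s, t⟩ := prod_P' (μ := μ) ha.meas ha.cnt hb.meas hb.cnt
  have hpos : ∀ᵐ x ∂(μ.restrict univ), 0 < mass μ a x * mass μ b x := by
    filter_upwards [ae_mass_pos' ha.meas ha.cnt univ, ae_mass_pos' hb.meas hb.cnt univ] with x h1 h2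
    exact mul_pos h1 h2
  have e : ∀ᵐ x ∂μ, info μ (fun x => (a x, b x)) x - info μ a x - info μ b x =
      Real.log ((mass μ a x * mass μ b x) /
        μ.real {y | y ∈ univ ∧ (a y, b y) = (a x, b x)}) := by
    filter_upwards [ae_mass_pos ha.meas ha.cnt, ae_mass_pos hb.meas hb.cnt,
      ae_mass_pos hL.meas hL.cnt] with x h1 h2 h3
    have : μ.real {y | y ∈ univ ∧ (a y, b y) = (a x, b x)} = mass μ (fun x => (a x, b x)) x := by
      simp [mass]
    rw [this, Real.log_div (mul_pos h1 h2).ne' h3.ne', Real.log_mul h1.ne' h2.ne']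
    unfold info
    ring
  have hint : Integrable (fun x => info μ (fun x => (a x, b x)) x - info μ a x - info μ b x) μ :=
    (hI.sub ha.int).sub hb.int
  have hg := gibbs (μ := μ) univ MeasurableSet.univ (fun x => (a x, b x)) hL.meas hL.cnt
    (fun q => μ.real {y | a y = q.1} * μ.real {y | b y = q.2})
    (fun q => mul_nonneg measureReal_nonneg measureReal_nonneg) s hpos
    (by rw [integrableOn_univ]; exact hint.congr e)
  rw [t, Measure.restrict_univ] at hg
  have h5 : ∫ x, (info μ (fun x => (a x, b x)) x - info μ a x - info μ b x) ∂μ ≤ 0 := by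
    rw [integral_congr_ae e]
    refine hg.trans ?_
    simp
  have h6 : ∫ x, (info μ (fun x => (a x, b x)) x - info μ a x - info μ b x) ∂μ =
      ent μ (fun x => (a x, b x)) - ent μ a - ent μ b := by
    have h7 := integral_sub (f := fun x => info μ (fun x => (a x, b x)) x - info μ a x)
      (g := info μ b) (hI.sub ha.int) hb.int
    rw [integral_sub hI ha.int] at h7
    exact h7
  linarith

theorem lab_of_finer {a : X → α} {b : X → β} (ha : IsLab μ a) (h : Finer a b) :
    IsLab μ b ∧ ent μ b ≤ ent μ a := by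
  have hne : Nonempty X := by
    by_contra hn
    rw [not_nonempty_iff] at hn
    have h1 : μ univ = 1 := measure_univ
    rw [univ_eq_empty_iff.2 hn, measure_empty] at h1
    exact zero_ne_one h1
  obtain ⟨x0⟩ := hne
  have : Nonempty β := ⟨b x0⟩
  obtain ⟨e, he⟩ := (Function.factorsThrough_iff (f := a) b).1 (fun x y hxy => h x y hxy)
  have hb : ∀ x, b x = e (a x) := fun x => congrFun he x
  have hmeas : ∀ c, MeasurableSet {x | b x = c} := by
    intro c
    have := meas_set ha.meas ha.cnt {d | e d = c}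
    simpa [hb] using this
  have hcnt : (range b).Countable := by
    rw [he, range_comp]
    exact ha.cnt.image e
  have hle : ∀ᵐ x ∂μ, info μ b x ≤ info μ a x := by
    filter_upwards [ae_mass_pos ha.meas ha.cnt] with x hx
    unfold info
    have h1 : mass μ a x ≤ mass μ b x := by
      unfold mass
      refine measureReal_mono ?_ (measure_ne_top _ _)
      intro y hy
      exact h y x hy
    have := Real.log_le_log hx h1
    linarith
  have hint : Integrable (info μ b) μ := by
    refine Integrable.mono' ha.int (meas_info hmeas hcnt).aestronglyMeasurable ?_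
    filter_upwards [hle] with x hx
    rw [Real.norm_eq_abs, abs_of_nonneg (info_nonneg b x)]
    exact hx
  exact ⟨⟨hmeas, hcnt, hint⟩, integral_mono_ae hint ha.int hle⟩

theorem lab_shannon {a : X → α} (hm : ∀ c, MeasurableSet {x | a x = c}) (hc : (range a).Countable) :
    (IsLab μ a ↔ Summable (fun c => Real.negMulLog (μ.real {x | a x = c}))) ∧
    ent μ a = ∑' c, Real.negMulLog (μ.real {x | a x = c}) := by
  have h1 := integrableOn_iff (μ := μ) hm hc univ MeasurableSet.univ
    (fun c => - Real.log (μ.real {y | a y = c}))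
  have h2 := integral_eq (μ := μ) hm hc univ MeasurableSet.univ
    (fun c => - Real.log (μ.real {y | a y = c}))
  have e : ∀ c, - Real.log (μ.real {y | a y = c}) * μ.real {y | y ∈ univ ∧ a y = c} =
      Real.negMulLog (μ.real {x | a x = c}) := by
    intro c
    have : {y | y ∈ univ ∧ a y = c} = {y | a y = c} := by simp
    rw [this, Real.negMulLog]
    ring
  simp only [e] at h1 h2
  rw [integrableOn_univ] at h1
  rw [Measure.restrict_univ] at h2
  refine ⟨?_, h2⟩
  rw [← h1]
  exact ⟨fun h => h.int, fun h => ⟨hm, hc, h⟩⟩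

theorem lab_finite {a : X → α} (hm : ∀ c, MeasurableSet {x | a x = c}) (hf : (range a).Finite) :
    IsLab μ a := by
  rw [(lab_shannon hm hf.countable).1]
  refine summable_of_hasFiniteSupport (hf.subset ?_)
  intro c hc'
  by_contra h
  apply hc'
  have : {x | a x = c} = ∅ := by
    ext y
    simp only [mem_ofPred_eq, mem_empty_iff_false, iff_false]
    intro h2
    exact h ⟨y, h2⟩
  simp [this]

theorem lab_comp {ν : Measure Y} [IsProbabilityMeasure ν] {T : Y → X} (hT : MeasurePreserving T ν μ)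
    {a : X → α} (ha : IsLab μ a) :
    IsLab ν (fun y => a (T y)) ∧ ent ν (fun y => a (T y)) = ent μ a := by
  have hmass : ∀ y, mass ν (fun y => a (T y)) y = mass μ a (T y) := by
    intro y
    unfold mass
    exact congrArg ENNReal.toReal
      (hT.measure_preimage (s := {z | a z = a (T y)}) (ha.meas _).nullMeasurableSet)
  have hinfo : info ν (fun y => a (T y)) = fun y => info μ a (T y) := by
    ext y
    unfold info
    rw [hmass]
  refine ⟨⟨fun c => hT.measurable (ha.meas c), ?_, ?_⟩, ?_⟩
  · refine ha.cnt.mono ?_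
    rintro _ ⟨y, rfl⟩
    exact ⟨T y, rfl⟩
  · rw [hinfo]
    exact hT.integrable_comp_of_integrable ha.int
  · unfold ent
    rw [hinfo]
    have h := integral_map (μ := ν) (φ := T) hT.measurable.aemeasurable (f := info μ a)
      (by rw [hT.map_eq]; exact (meas_info ha.meas ha.cnt).aestronglyMeasurable)
    rw [hT.map_eq] at h
    exact h.symm

end Pool.Agent.TH480.FI
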