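import Pool.Agent.TH480.FI.FI_LAB

/-!
Integrability and monotonicity of the restricted mutual information.
-/

set_option autoImplicit false
set_option linter.unusedSectionVars false
set_option linter.unusedSimpArgs false

namespace Pool.Agent.TH480.FI

open MeasureTheory Set Filter Pool.Agent.TH722.FI
open scoped Topology ENNReal

variable {X Y : Type*} [MeasurableSpace X] [MeasurableSpace Y] {μ : Measure X} [IsProbabilityMeasure μ]
  {α β α' β' γ κ : Type*}

lemma ae_jmass_pos {a : X → α} {b : X → β} (ha : IsLab μ a) (hb : IsLab μ b) (D : Set X)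
    (hD : MeasurableSet D) : ∀ᵐ x ∂(μ.restrict D), 0 < jmass μ D a b x := by
  have h := ae_pos (μ := μ) (meas_pair ha.meas hb.meas) (cnt_pair ha.cnt hb.cnt) D hD
  filter_upwards [h] with x hx
  simpa only [jmass, Prod.mk.injEq] using hx

/-- the integrand as a sum of logarithms -/
lemma jfun_eq {a : X → α} {b : X → β} {D : Set X} {x : X} (h1 : 0 < jmass μ D a b x)
    (h2 : 0 < mass μ a x) (h3 : 0 < mass μ b x) :
    jfun μ D a b x = Real.log (jmass μ D a b x) + info μ a x + info μ b x := by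
  unfold jfun info
  rw [Real.log_div h1.ne' (mul_pos h2 h3).ne', Real.log_mul h2.ne' h3.ne']
  ring

theorem jfun_integrable (D : Set X) (hD : MeasurableSet D) {a : X → α} {b : X → β}
    (ha : IsLab μ a) (hb : IsLab μ b) : IntegrableOn (jfun μ D a b) D μ := by
  have h1 := int_log_jmass ha hb D hD
  have h2 : IntegrableOn (fun x => Real.log (jmass μ D a b x) + info μ a x + info μ b x) D μ :=
    (h1.add ha.int.integrableOn).add hb.int.integrableOn
  refine h2.congr_fun_ae ?_
  filter_upwards [ae_jmass_pos ha hb D hD, ae_mass_pos' ha.meas ha.cnt D,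
    ae_mass_pos' hb.meas hb.cnt D] with x h3 h4 h5
  exact (jfun_eq h3 h4 h5).symm

lemma lint' {ν : Measure X} {m : X → γ} (hm : ∀ c, MeasurableSet {x | m x = c})
    (hc : (range m).Countable) (g : γ → ℝ≥0∞) :
    ∫⁻ x, g (m x) ∂ν = ∑' c, g c * ν {y | m y = c} := by
  have h := lint (ν := ν) hm hc univ MeasurableSet.univ g
  simpa using h

/-- the total mass of the comparison density -/
lemma sum_comparison {a' : X → α'} {b' : X → β'} (ha' : IsLab μ a') (hb' : IsLab μ b')
    {a : X → α} {b : X → β} (ha : IsLab μ a) (hb : IsLab μ b) (e : α' → α) (f : β' → β)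
    (he : ∀ x, a x = e (a' x)) (hf : ∀ x, b x = f (b' x)) (D : Set X) (hD : MeasurableSet D) :
    ∑' q : α' × β', ENNReal.ofReal (μ.real {y | a' y = q.1} * μ.real {y | b' y = q.2} *
      (μ.real {y | y ∈ D ∧ a y = e q.1 ∧ b y = f q.2} /
        (μ.real {y | a y = e q.1} * μ.real {y | b y = f q.2}))) ≤ ENNReal.ofReal (μ.real D) := by
  set g : α → β → ℝ≥0∞ := fun u v => ENNReal.ofReal (μ.real {y | y ∈ D ∧ a y = u ∧ b y = v} /
        (μ.real {y | a y = u} * μ.real {y | b y = v})) with hg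
  have hr : ∀ S : Set X, ENNReal.ofReal (μ.real S) = μ S := fun S => by
    rw [Measure.real, ENNReal.ofReal_toReal (measure_ne_top _ _)]
  have e1 : ∀ q : α' × β', ENNReal.ofReal (μ.real {y | a' y = q.1} * μ.real {y | b' y = q.2} *
      (μ.real {y | y ∈ D ∧ a y = e q.1 ∧ b y = f q.2} /
        (μ.real {y | a y = e q.1} * μ.real {y | b y = f q.2}))) =
      (g (e q.1) (f q.2) * μ {y | b' y = q.2}) * μ {y | a' y = q.1} := by
    intro q
    rw [ENNReal.ofReal_mul (mul_nonneg measureReal_nonneg measureReal_nonneg),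
      ENNReal.ofReal_mul measureReal_nonneg, hr, hr]
    rw [hg]
    ring
  simp_rw [e1]
  rw [ENNReal.tsum_prod']
  have e2 : ∀ c : α', ∑' d : β', g (e c) (f d) * μ {y | b' y = d} * μ {y | a' y = c} =
      (∑' v, g (e c) v * μ {y | b y = v}) * μ {y | a' y = c} := by
    intro c
    rw [ENNReal.tsum_mul_right]
    congr 1
    rw [← lint' hb'.meas hb'.cnt (fun d => g (e c) (f d)), ← lint' hb.meas hb.cnt (g (e c))]
    simp_rw [hf]
  simp only [e2]
  rw [← lint' ha'.meas ha'.cnt (fun c => ∑' v, g (e c) v * μ {y | b y = v})]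
  have e3 : ∫⁻ x, ∑' v, g (e (a' x)) v * μ {y | b y = v} ∂μ =
      ∑' u, (∑' v, g u v * μ {y | b y = v}) * μ {y | a y = u} := by
    rw [← lint' ha.meas ha.cnt (fun u => ∑' v, g u v * μ {y | b y = v})]
    simp_rw [he]
  rw [e3]
  have e4 : ∀ u v, g u v * μ {y | b y = v} * μ {y | a y = u} ≤
      μ {y | y ∈ D ∧ (a y, b y) = (u, v)} := by
    intro u v
    rw [hg]
    simp only [Prod.mk.injEq]
    rw [← hr {y | b y = v}, ← hr {y | a y = u}, ← hr {y | y ∈ D ∧ a y = u ∧ b y = v},
      ← ENNReal.ofReal_mul (div_nonneg measureReal_nonneg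
        (mul_nonneg measureReal_nonneg measureReal_nonneg)),
      ← ENNReal.ofReal_mul (mul_nonneg (div_nonneg measureReal_nonneg
        (mul_nonneg measureReal_nonneg measureReal_nonneg)) measureReal_nonneg)]
    refine ENNReal.ofReal_le_ofReal ?_
    rw [mul_assoc, mul_comm (μ.real {y | b y = v})]
    by_cases h0 : μ.real {y | a y = u} * μ.real {y | b y = v} = 0
    · rw [h0, mul_zero]; exact measureReal_nonneg
    · rw [div_mul_cancel₀ _ h0]
  calc ∑' u, (∑' v, g u v * μ {y | b y = v}) * μ {y | a y = u}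
      = ∑' u, ∑' v, g u v * μ {y | b y = v} * μ {y | a y = u} := by
        refine tsum_congr fun u => ?_
        rw [ENNReal.tsum_mul_right]
    _ ≤ ∑' u, ∑' v, μ {y | y ∈ D ∧ (a y, b y) = (u, v)} :=
        ENNReal.tsum_le_tsum fun u => ENNReal.tsum_le_tsum fun v => e4 u v
    _ = ∑' q : α × β, μ {y | y ∈ D ∧ (a y, b y) = q} := by
        rw [ENNReal.tsum_prod']
    _ = μ D := by
        have h := lint (ν := μ) (meas_pair ha.meas hb.meas) (cnt_pair ha.cnt hb.cnt) D hD
          (fun _ => 1)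
        simp only [one_mul, lintegral_const, Measure.restrict_apply MeasurableSet.univ,
          univ_inter] at h
        exact h.symm
    _ ≤ ENNReal.ofReal (μ.real D) := by rw [hr]

lemma exists_factor {a' : X → α'} {a : X → α} [Nonempty X] (h : Finer a' a) :
    ∃ e : α' → α, ∀ x, a x = e (a' x) := by
  obtain ⟨x0⟩ := ‹Nonempty X›
  have : Nonempty α := ⟨a x0⟩
  obtain ⟨e, he⟩ := (Function.factorsThrough_iff (f := a') a).1 (fun x y hxy => h x y hxy)
  exact ⟨e, fun x => congrFun he x⟩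

lemma nonempty_of_prob (μ : Measure X) [IsProbabilityMeasure μ] : Nonempty X := by
  by_contra hn
  rw [not_nonempty_iff] at hn
  have h1 : μ univ = 1 := measure_univ
  rw [univ_eq_empty_iff.2 hn, measure_empty] at h1
  exact zero_ne_one h1

theorem J_mono (D : Set X) (hD : MeasurableSet D) {a : X → α} {b : X → β} {a' : X → α'} {b' : X → β'}
    (ha' : IsLab μ a') (hb' : IsLab μ b') (haa : Finer a' a) (hbb : Finer b' b) :
    J μ D a b ≤ J μ D a' b' := by
  have : Nonempty X := nonempty_of_prob μ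
  have ha := (lab_of_finer ha' haa).1
  have hb := (lab_of_finer hb' hbb).1
  obtain ⟨e, he⟩ := exists_factor haa
  obtain ⟨f, hf⟩ := exists_factor hbb
  set Q : α' × β' → ℝ := fun q => μ.real {y | a' y = q.1} * μ.real {y | b' y = q.2} *
      (μ.real {y | y ∈ D ∧ a y = e q.1 ∧ b y = f q.2} /
        (μ.real {y | a y = e q.1} * μ.real {y | b y = f q.2})) with hQ
  have hQ0 : ∀ q, 0 ≤ Q q := fun q =>
    mul_nonneg (mul_nonneg measureReal_nonneg measureReal_nonneg)
      (div_nonneg measureReal_nonneg (mul_nonneg measureReal_nonneg measureReal_nonneg))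
  obtain ⟨hs, hle⟩ := summable_le hQ0 (measureReal_nonneg (μ := μ) (s := D))
    (sum_comparison ha' hb' ha hb e f he hf D hD)
  have hQx : ∀ x, Q (a' x, b' x) = mass μ a' x * mass μ b' x *
      (jmass μ D a b x / (mass μ a x * mass μ b x)) := by
    intro x
    simp only [hQ, mass, jmass, he, hf]
  have hjx : ∀ x, μ.real {y | y ∈ D ∧ (a' y, b' y) = (a' x, b' x)} = jmass μ D a' b' x := by
    intro x
    simp only [jmass, Prod.mk.injEq]
  have hall : ∀ᵐ x ∂(μ.restrict D), 0 < jmass μ D a b x ∧ 0 < jmass μ D a' b' x ∧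
      0 < mass μ a x ∧ 0 < mass μ b x ∧ 0 < mass μ a' x ∧ 0 < mass μ b' x := by
    filter_upwards [ae_jmass_pos ha hb D hD, ae_jmass_pos ha' hb' D hD,
      ae_mass_pos' ha.meas ha.cnt D, ae_mass_pos' hb.meas hb.cnt D,
      ae_mass_pos' ha'.meas ha'.cnt D, ae_mass_pos' hb'.meas hb'.cnt D] with x h1 h2 h3 h4 h5 h6
    exact ⟨h1, h2, h3, h4, h5, h6⟩
  have hlog : ∀ᵐ x ∂(μ.restrict D), jfun μ D a b x - jfun μ D a' b' x =
      Real.log (Q (a' x, b' x) / μ.real {y | y ∈ D ∧ (a' y, b' y) = (a' x, b' x)}) := by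
    filter_upwards [hall] with x hx
    obtain ⟨h1, h2, h3, h4, h5, h6⟩ := hx
    rw [hjx, hQx, Real.log_div (by positivity) h2.ne', Real.log_mul (by positivity) (by positivity),
      Real.log_mul h5.ne' h6.ne', Real.log_div h1.ne' (by positivity), Real.log_mul h3.ne' h4.ne',
      jfun_eq h1 h3 h4, jfun_eq h2 h5 h6]
    unfold info
    ring
  have hpos : ∀ᵐ x ∂(μ.restrict D), 0 < Q (a' x, b' x) := by
    filter_upwards [hall] with x hx
    obtain ⟨h1, h2, h3, h4, h5, h6⟩ := hx
    rw [hQx]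
    positivity
  have i1 := jfun_integrable D hD ha hb
  have i2 := jfun_integrable D hD ha' hb'
  have hint : IntegrableOn (fun x => jfun μ D a b x - jfun μ D a' b' x) D μ := i1.sub i2
  have hg := gibbs (μ := μ) D hD (fun x => (a' x, b' x)) (meas_pair ha'.meas hb'.meas)
    (cnt_pair ha'.cnt hb'.cnt) Q hQ0 hs hpos (hint.congr_fun_ae hlog)
  rw [← integral_congr_ae hlog, integral_sub i1 i2] at hg
  unfold J
  linarith

end Pool.Agent.TH480.FI
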