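import Pool.Agent.TH480.FI.FI_JMONO

/-!
The conditional entropy given a generating sequence of labels tends to zero.
-/

set_option autoImplicit false
set_option linter.unusedSectionVars false
set_option linter.unusedSimpArgs false

namespace Pool.Agent.TH480.FI

open MeasureTheory Set Filter Pool.Agent.TH722.FI
open scoped Topology ENNReal

variable {X Y : Type*} [MeasurableSpace X] [MeasurableSpace Y] {μ : Measure X} [IsProbabilityMeasure μ]
  {α β α' β' γ κ : Type*}

/-- the set can be approximated by unions of cells of the labels -/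
def Appr (μ : Measure X) {P : ℕ → Type*} (p : ∀ n, X → P n) (B : Set X) : Prop :=
  ∀ η : ℝ, 0 < η → ∃ n, ∃ S : Set (P n), μ.real (symmDiff B (p n ⁻¹' S)) ≤ η

lemma finer_le {P : ℕ → Type*} {p : ∀ n, X → P n} (hmono : ∀ n, Finer (p (n + 1)) (p n))
    {n m : ℕ} (h : n ≤ m) : Finer (p m) (p n) := by
  induction m, h using Nat.le_induction with
  | base => exact fun x y h => h
  | succ m _ ih => exact fun x y h => ih x y (hmono m x y h)

lemma lift_set {a' : X → α'} {a : X → α} (h : Finer a' a) (S : Set α) :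
    ∃ S' : Set α', a ⁻¹' S = a' ⁻¹' S' := by
  refine ⟨a' '' (a ⁻¹' S), ?_⟩
  ext x
  constructor
  · intro hx
    exact ⟨x, hx, rfl⟩
  · rintro ⟨y, hy, hyx⟩
    have := h y x hyx
    simp only [mem_preimage] at hy ⊢
    rw [← this]; exact hy

lemma appr_gen {P : ℕ → Type*} {p : ∀ n, X → P n} (hp : ∀ n, IsLab μ (p n))
    (hmono : ∀ n, Finer (p (n + 1)) (p n)) (B : Set X)
    (hB : MeasurableSet[⨆ n, MeasurableSpace.comap (p n) ⊤] B) :
    MeasurableSet B ∧ Appr μ p B := by
  rw [MeasurableSpace.measurableSet_iSup] at hB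
  induction hB with
  | basic u hu =>
    obtain ⟨n, S, _, hS⟩ := hu
    subst hS
    refine ⟨meas_set (hp n).meas (hp n).cnt S, fun η hη => ⟨n, S, ?_⟩⟩
    simp [hη.le]
  | empty =>
    refine ⟨MeasurableSet.empty, fun η hη => ⟨0, ∅, ?_⟩⟩
    simp [hη.le]
  | compl u _ ih =>
    refine ⟨ih.1.compl, fun η hη => ?_⟩
    obtain ⟨n, S, hS⟩ := ih.2 η hη
    refine ⟨n, Sᶜ, ?_⟩
    rw [preimage_compl, compl_symmDiff_compl]
    exact hS
  | iUnion f _ ih =>
    refine ⟨MeasurableSet.iUnion fun i => (ih i).1, fun η hη => ?_⟩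
    -- a finite union is almost everything
    set A : ℕ → Set X := fun k => ⋃ i ∈ Finset.range k, f i with hA
    have hAm : Monotone A := by
      intro k l hkl x hx
      simp only [hA, mem_iUnion, Finset.mem_range] at hx ⊢
      obtain ⟨i, hi, hx⟩ := hx
      exact ⟨i, lt_of_lt_of_le hi hkl, hx⟩
    have hAu : (⋃ k, A k) = ⋃ i, f i := by
      ext x
      simp only [hA, mem_iUnion, Finset.mem_range]
      constructor
      · rintro ⟨k, i, _, hx⟩
        exact ⟨i, hx⟩
      · rintro ⟨i, hx⟩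
        exact ⟨i + 1, i, Nat.lt_succ_self i, hx⟩
    have hAmeas : ∀ k, MeasurableSet (A k) := fun k =>
      Finset.measurableSet_biUnion _ fun i _ => (ih i).1
    have ht : Tendsto (fun k => μ.real (A k)) atTop (𝓝 (μ.real (⋃ i, f i))) := by
      have h1 := tendsto_measure_iUnion_atTop (μ := μ) hAm
      rw [hAu] at h1
      exact (ENNReal.tendsto_toReal (measure_ne_top μ _)).comp h1
    obtain ⟨k, hk⟩ : ∃ k, μ.real (⋃ i, f i) - η / 2 < μ.real (A k) :=
      ((ht.eventually (lt_mem_nhds (by linarith))).exists)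
    have hη' : 0 < η / (2 * (k + 1)) := by positivity
    choose n S hS using fun i => (ih i).2 (η / (2 * (k + 1))) hη'
    set N := (Finset.range k).sup n with hN
    have hn : ∀ i ∈ Finset.range k, n i ≤ N := fun i hi => Finset.le_sup hi
    have hex : ∀ i, ∃ S' : Set (P N), i ∈ Finset.range k → p (n i) ⁻¹' S i = p N ⁻¹' S' := by
      intro i
      by_cases hi : i ∈ Finset.range k
      · obtain ⟨S', h⟩ := lift_set (finer_le hmono (hn i hi)) (S i)
        exact ⟨S', fun _ => h⟩
      · exact ⟨∅, fun h => absurd h hi⟩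
    choose S' hS' using hex
    refine ⟨N, ⋃ i ∈ Finset.range k, S' i, ?_⟩
    have hsub : symmDiff (⋃ i, f i) (p N ⁻¹' ⋃ i ∈ Finset.range k, S' i) ⊆
        ((⋃ i, f i) \ A k) ∪ ⋃ i ∈ Finset.range k, symmDiff (f i) (p N ⁻¹' S' i) := by
      intro x hx
      rw [Set.mem_symmDiff] at hx
      simp only [mem_iUnion, mem_preimage, Finset.mem_range, exists_prop, hA, mem_union, Set.mem_sdiff,
        Set.mem_symmDiff, not_exists, not_and] at hx ⊢
      rcases hx with ⟨⟨i, hi⟩, h2⟩ | ⟨⟨i, hi, h1⟩, h2⟩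
      · by_cases h3 : ∃ j, j < k ∧ x ∈ f j
        · obtain ⟨j, hj, hxj⟩ := h3
          exact Or.inr ⟨j, hj, Or.inl ⟨hxj, h2 j hj⟩⟩
        · refine Or.inl ⟨⟨i, hi⟩, fun j hj hxj => h3 ⟨j, hj, hxj⟩⟩
      · exact Or.inr ⟨i, hi, Or.inr ⟨h1, h2 i⟩⟩
    have h1 : μ.real ((⋃ i, f i) \ A k) ≤ η / 2 := by
      have h2 : A k ⊆ ⋃ i, f i := by rw [← hAu]; exact subset_iUnion A k
      rw [measureReal_sdiff h2 (hAmeas k)]
      linarith
    have h2 : μ.real (⋃ i ∈ Finset.range k, symmDiff (f i) (p N ⁻¹' S' i)) ≤ η / 2 := by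
      refine (measureReal_biUnion_finset_le _ _).trans ?_
      have h3 : ∀ i ∈ Finset.range k, μ.real (symmDiff (f i) (p N ⁻¹' S' i)) ≤
          η / (2 * (k + 1)) := by
        intro i hi
        rw [← hS' i hi]
        exact hS i
      refine (Finset.sum_le_sum h3).trans ?_
      rw [Finset.sum_const, Finset.card_range, nsmul_eq_mul]
      have hk0 : (0 : ℝ) ≤ k := by positivity
      rw [mul_div_assoc', div_le_div_iff₀ (by positivity) (by positivity)]
      nlinarith
    calc μ.real (symmDiff (⋃ i, f i) (p N ⁻¹' ⋃ i ∈ Finset.range k, S' i)) ≤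
          μ.real (((⋃ i, f i) \ A k) ∪ ⋃ i ∈ Finset.range k, symmDiff (f i) (p N ⁻¹' S' i)) :=
          measureReal_mono hsub (measure_ne_top _ _)
      _ ≤ _ := measureReal_union_le _ _
      _ ≤ η := by linarith

lemma appr_all {P : ℕ → Type*} {p : ∀ n, X → P n} (hp : ∀ n, IsLab μ (p n))
    (hmono : ∀ n, Finer (p (n + 1)) (p n))
    (hgen : ∀ B : Set X, MeasurableSet B → ∃ B' : Set X,
      MeasurableSet[⨆ n, MeasurableSpace.comap (p n) ⊤] B' ∧ B =ᵐ[μ] B')
    (B : Set X) (hB : MeasurableSet B) : Appr μ p B := by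
  intro η hη
  obtain ⟨B', hB', hBB⟩ := hgen B hB
  obtain ⟨_, h2⟩ := appr_gen hp hmono B' hB'
  obtain ⟨n, S, hS⟩ := h2 η hη
  refine ⟨n, S, ?_⟩
  have h3 : μ.real (symmDiff B B') = 0 := by
    rw [Measure.real, measure_symmDiff_eq_zero_iff.2 hBB]; rfl
  calc μ.real (symmDiff B (p n ⁻¹' S)) ≤ μ.real (symmDiff B B' ∪ symmDiff B' (p n ⁻¹' S)) :=
        measureReal_mono (symmDiff_triangle B B' (p n ⁻¹' S)) (measure_ne_top _ _)
    _ ≤ _ := measureReal_union_le _ _
    _ ≤ η := by rw [h3]; linarith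

/-- a finite measurable label is almost a function of a label of the sequence -/
lemma exists_approx {P : ℕ → Type*} {p : ∀ n, X → P n} (hp : ∀ n, IsLab μ (p n))
    (hmono : ∀ n, Finer (p (n + 1)) (p n))
    (hgen : ∀ B : Set X, MeasurableSet B → ∃ B' : Set X,
      MeasurableSet[⨆ n, MeasurableSpace.comap (p n) ⊤] B' ∧ B =ᵐ[μ] B')
    {c : X → γ} (hc : IsLab μ c) (η : ℝ) (hη : 0 < η) :
    ∃ n, ∃ e : P n → γ, μ.real {x | c x ≠ e (p n x)} ≤ η := by
  classical
  obtain ⟨x0⟩ := nonempty_of_prob μ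
  obtain ⟨hs, ht⟩ := sum_P (μ := μ) hc.meas hc.cnt univ MeasurableSet.univ
  have hu : ∀ v, {y | y ∈ univ ∧ c y = v} = {y | c y = v} := by intro v; simp
  simp only [hu] at hs ht
  have h1 : μ.real (univ : Set X) = 1 := by simp
  rw [h1] at ht
  obtain ⟨F, hF⟩ : ∃ F : Finset γ, 1 - η / 2 < ∑ v ∈ F, μ.real {y | c y = v} := by
    have h2 := hs.hasSum
    rw [ht] at h2
    exact (h2.eventually (lt_mem_nhds (by linarith))).exists
  have hFm : μ.real {x | c x ∉ F} ≤ η / 2 := by
    have e1 : {x | c x ∈ F} = ⋃ v ∈ F, {y | c y = v} := by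
      ext x
      simp
    have hm : MeasurableSet {x | c x ∈ F} := meas_set hc.meas hc.cnt (F : Set γ)
    have e2 : μ.real {x | c x ∈ F} = ∑ v ∈ F, μ.real {y | c y = v} := by
      rw [e1, measureReal_biUnion_finset]
      · intro v _ w _ hvw
        rw [Function.onFun, Set.disjoint_left]
        intro x hx hx'
        exact hvw (hx.symm.trans hx')
      · exact fun v _ => hc.meas v
    have e3 : {x | c x ∉ F} = {x | c x ∈ F}ᶜ := rfl
    rw [e3, probReal_compl_eq_one_sub hm, e2]
    linarith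
  have hη' : 0 < η / (2 * (F.card + 1)) := by positivity
  choose n S hS using fun v => appr_all hp hmono hgen {x | c x = v} (hc.meas v)
    (η / (2 * (F.card + 1))) hη'
  set N := F.sup n with hN
  have hn : ∀ v ∈ F, n v ≤ N := fun v hv => Finset.le_sup hv
  have hex : ∀ v, ∃ S' : Set (P N), v ∈ F → p (n v) ⁻¹' S v = p N ⁻¹' S' := by
    intro v
    by_cases hv : v ∈ F
    · obtain ⟨S', h⟩ := lift_set (finer_le hmono (hn v hv)) (S v)
      exact ⟨S', fun _ => h⟩
    · exact ⟨∅, fun h => absurd h hv⟩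
  choose S' hS' using hex
  refine ⟨N, fun q => if h : ∃ v, v ∈ F ∧ q ∈ S' v then h.choose else c x0, ?_⟩
  have hsub : {x | c x ≠ (fun q => if h : ∃ v, v ∈ F ∧ q ∈ S' v then h.choose else c x0) (p N x)} ⊆
      {x | c x ∉ F} ∪ ⋃ v ∈ F, symmDiff {x | c x = v} (p N ⁻¹' S' v) := by
    intro x hx
    by_contra hcon
    simp only [mem_union, mem_ofPred_eq, not_or, not_not, mem_iUnion, exists_prop, not_exists,
      not_and, Set.mem_symmDiff, mem_preimage] at hcon
    obtain ⟨g1, g2⟩ := hcon
    have g3 : p N x ∈ S' (c x) := (g2 (c x) g1).1 rfl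
    have g4 : ∃ v, v ∈ F ∧ p N x ∈ S' v := ⟨c x, g1, g3⟩
    have g5 := g4.choose_spec
    have g6 : c x = g4.choose := (g2 g4.choose g5.1).2 g5.2
    apply hx
    simp only [dif_pos g4]
    exact g6
  have h2 : μ.real (⋃ v ∈ F, symmDiff {x | c x = v} (p N ⁻¹' S' v)) ≤ η / 2 := by
    refine (measureReal_biUnion_finset_le _ _).trans ?_
    have h3 : ∀ v ∈ F, μ.real (symmDiff {x | c x = v} (p N ⁻¹' S' v)) ≤
        η / (2 * (F.card + 1)) := by
      intro v hv
      rw [← hS' v hv]
      exact hS v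
    refine (Finset.sum_le_sum h3).trans ?_
    rw [Finset.sum_const, nsmul_eq_mul]
    have hk0 : (0 : ℝ) ≤ F.card := by positivity
    rw [mul_div_assoc', div_le_div_iff₀ (by positivity) (by positivity)]
    nlinarith
  refine (measureReal_mono hsub (measure_ne_top _ _)).trans ?_
  refine (measureReal_union_le _ _).trans ?_
  linarith

lemma tsum_cells {m : X → κ} (hm : ∀ c, MeasurableSet {x | m x = c})
    (hmc : (range m).Countable) : ∑' v, μ {y | m y = v} = 1 := by
  have h := lint' (ν := μ) hm hmc (fun _ => 1)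
  simp only [one_mul, lintegral_const, measure_univ] at h
  exact h.symm

/-- the entropy estimate for a label which is almost determined by another one -/
lemma fano {a : X → α} {c : X → γ} (ha : IsLab μ a) (hc : IsLab μ c) (e : α → γ) (δ : ℝ)
    (hδ : 0 < δ) (hδ1 : δ < 1) :
    ent μ (fun x => (a x, c x)) - ent μ a ≤ - Real.log (1 - δ) +
      (- Real.log δ * μ.real {x | c x ≠ e (a x)} + ∫ x in {x | c x ≠ e (a x)}, info μ c x ∂μ) := by
  classical
  obtain ⟨hL, _⟩ := lab_pair ha hc
  set w : α × γ → ℝ := fun q => (1 - δ) * (if q.2 = e q.1 then 1 else 0) +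
    δ * μ.real {y | c y = q.2} with hw
  have hw0 : ∀ q, 0 ≤ w q := by
    intro q
    have : 0 ≤ μ.real {y | c y = q.2} := measureReal_nonneg
    have h1 : (0 : ℝ) ≤ (if q.2 = e q.1 then 1 else 0) := by split_ifs <;> norm_num
    have h2 : 0 ≤ 1 - δ := by linarith
    exact add_nonneg (mul_nonneg h2 h1) (mul_nonneg hδ.le this)
  have hw1 : ∀ q, w q ≤ 1 := by
    intro q
    have h0 : μ.real {y | c y = q.2} ≤ 1 := real_le_one _
    have h1 : (if q.2 = e q.1 then (1 : ℝ) else 0) ≤ 1 := by split_ifs <;> norm_num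
    have h2 : 0 ≤ 1 - δ := by linarith
    have h3 := mul_le_mul_of_nonneg_left h0 hδ.le
    have h4 := mul_le_mul_of_nonneg_left h1 h2
    simp only [hw]
    linarith
  have hwp : ∀ᵐ x ∂μ, 0 < w (a x, c x) := by
    filter_upwards [ae_mass_pos hc.meas hc.cnt] with x hx
    have h2 : 0 ≤ 1 - δ := by linarith
    have h1 : (0 : ℝ) ≤ (if c x = e (a x) then 1 else 0) := by split_ifs <;> norm_num
    have h3 : 0 < δ * μ.real {y | c y = c x} := mul_pos hδ hx
    simp only [hw]
    have := mul_nonneg h2 h1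
    linarith
  have hwle : ∀ᵐ x ∂μ, - Real.log (w (a x, c x)) ≤ - Real.log (1 - δ) +
      {x | c x ≠ e (a x)}.indicator (fun x => - Real.log δ + info μ c x) x := by
    filter_upwards [ae_mass_pos hc.meas hc.cnt, hwp] with x hx hx2
    have h2 : 0 < 1 - δ := by linarith
    by_cases h : c x = e (a x)
    · have h3 : 1 - δ ≤ w (a x, c x) := by
        simp only [hw, h, if_true]
        have : 0 ≤ μ.real {y | c y = e (a x)} := measureReal_nonneg
        have := mul_nonneg hδ.le this
        linarith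
      have h4 := Real.log_le_log h2 h3
      rw [Set.indicator_of_notMem (by simpa using h)]
      linarith
    · have h3 : w (a x, c x) = δ * mass μ c x := by
        simp only [hw, h, if_false, mass]
        ring
      rw [Set.indicator_of_mem (show x ∈ {x | c x ≠ e (a x)} from h), h3,
        Real.log_mul hδ.ne' hx.ne']
      have h5 : Real.log (1 - δ) ≤ 0 := Real.log_nonpos h2.le (by linarith)
      unfold info
      linarith
  have hBm : MeasurableSet {x | c x ≠ e (a x)} := by
    have := meas_set hL.meas hL.cnt {q : α × γ | q.2 ≠ e q.1}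
    exact this
  have hI1 : Integrable (fun x => - Real.log δ + info μ c x) μ := (integrable_const _).add hc.int
  have hI2 : Integrable (fun x => - Real.log (1 - δ) +
      {x | c x ≠ e (a x)}.indicator (fun x => - Real.log δ + info μ c x) x) μ :=
    (integrable_const _).add (hI1.indicator hBm)
  have hIw : Integrable (fun x => - Real.log (w (a x, c x))) μ := by
    refine Integrable.mono' hI2
      (meas_comp hL.meas hL.cnt (fun q => - Real.log (w q))).aestronglyMeasurable ?_
    filter_upwards [hwle] with x hx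
    rw [Real.norm_eq_abs, abs_of_nonneg]
    · exact hx
    · have := Real.log_nonpos (hw0 (a x, c x)) (hw1 (a x, c x))
      linarith
  set Q : α × γ → ℝ := fun q => μ.real {y | a y = q.1} * w q with hQ
  have hQ0 : ∀ q, 0 ≤ Q q := fun q => mul_nonneg measureReal_nonneg (hw0 q)
  have hr : ∀ S : Set X, ENNReal.ofReal (μ.real S) = μ S := fun S => by
    rw [Measure.real, ENNReal.ofReal_toReal (measure_ne_top _ _)]
  have hsum : ∑' q, ENNReal.ofReal (Q q) ≤ ENNReal.ofReal 1 := by
    have e1 : ∀ q : α × γ, ENNReal.ofReal (Q q) = (ENNReal.ofReal (1 - δ) *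
        (if q.2 = e q.1 then 1 else 0) + ENNReal.ofReal δ * μ {y | c y = q.2}) *
          μ {y | a y = q.1} := by
      intro q
      have h1 : (0 : ℝ) ≤ (if q.2 = e q.1 then 1 else 0) := by split_ifs <;> norm_num
      have h2 : 0 ≤ 1 - δ := by linarith
      simp only [hQ, hw]
      rw [ENNReal.ofReal_mul measureReal_nonneg, ENNReal.ofReal_add (mul_nonneg h2 h1)
        (mul_nonneg hδ.le measureReal_nonneg), ENNReal.ofReal_mul h2, ENNReal.ofReal_mul hδ.le,
        hr, hr, mul_comm]
      congr 3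
      split_ifs <;> simp
    simp_rw [e1]
    rw [ENNReal.tsum_prod']
    have e2 : ∀ q : α, ∑' v : γ, (ENNReal.ofReal (1 - δ) *
        (if v = e q then 1 else 0) + ENNReal.ofReal δ * μ {y | c y = v}) *
          μ {y | a y = q} = μ {y | a y = q} := by
      intro q
      rw [ENNReal.tsum_mul_right, ENNReal.tsum_add, ENNReal.tsum_mul_left, ENNReal.tsum_mul_left,
        tsum_ite_eq, tsum_cells hc.meas hc.cnt, mul_one, mul_one, ← ENNReal.ofReal_add (by linarith) hδ.le]
      simp
    simp only [e2]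
    rw [tsum_cells ha.meas ha.cnt]
    simp
  obtain ⟨hs, hle⟩ := summable_le hQ0 zero_le_one hsum
  have hpos : ∀ᵐ x ∂(μ.restrict univ), 0 < Q (a x, c x) := by
    rw [Measure.restrict_univ]
    filter_upwards [ae_mass_pos ha.meas ha.cnt, hwp] with x h1 h2
    exact mul_pos h1 h2
  have hlog : ∀ᵐ x ∂μ, info μ (fun x => (a x, c x)) x - info μ a x -
      (- Real.log (w (a x, c x))) =
      Real.log (Q (a x, c x) / μ.real {y | y ∈ univ ∧ (a y, c y) = (a x, c x)}) := by
    filter_upwards [ae_mass_pos ha.meas ha.cnt, hwp, ae_mass_pos hL.meas hL.cnt] with x h1 h2 h3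
    have e3 : μ.real {y | y ∈ univ ∧ (a y, c y) = (a x, c x)} = mass μ (fun x => (a x, c x)) x := by
      simp [mass]
    have e4 : Q (a x, c x) = mass μ a x * w (a x, c x) := rfl
    rw [e3, e4, Real.log_div (mul_pos h1 h2).ne' h3.ne', Real.log_mul h1.ne' h2.ne']
    unfold info
    ring
  have hint : Integrable (fun x => info μ (fun x => (a x, c x)) x - info μ a x -
      (- Real.log (w (a x, c x)))) μ := (hL.int.sub ha.int).sub hIw
  have hg := gibbs (μ := μ) univ MeasurableSet.univ (fun x => (a x, c x)) hL.meas hL.cnt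
    Q hQ0 hs hpos (by rw [integrableOn_univ]; exact hint.congr hlog)
  rw [Measure.restrict_univ, ← integral_congr_ae hlog] at hg
  have h7 := integral_sub (f := fun x => info μ (fun x => (a x, c x)) x - info μ a x)
    (g := fun x => - Real.log (w (a x, c x))) (hL.int.sub ha.int) hIw
  rw [integral_sub hL.int ha.int] at h7
  have h8 : μ.real (univ : Set X) = 1 := by simp
  rw [h7, h8] at hg
  have h9 := integral_mono_ae hIw hI2 hwle
  have h10 : ∫ x, (- Real.log (1 - δ) +
      {x | c x ≠ e (a x)}.indicator (fun x => - Real.log δ + info μ c x) x) ∂μ =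
      - Real.log (1 - δ) + (- Real.log δ * μ.real {x | c x ≠ e (a x)} +
        ∫ x in {x | c x ≠ e (a x)}, info μ c x ∂μ) := by
    rw [integral_add (integrable_const _) (hI1.indicator hBm), integral_indicator hBm,
      integral_add (integrable_const _) hc.int.integrableOn]
    simp [mul_comm]
  rw [h10] at h9
  unfold ent
  linarith

theorem ent_gen {P : ℕ → Type*} (p : ∀ n, X → P n) (hp : ∀ n, IsLab μ (p n))
    (hmono : ∀ n, Finer (p (n + 1)) (p n))
    (hgen : ∀ B : Set X, MeasurableSet B → ∃ B' : Set X,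
      MeasurableSet[⨆ n, MeasurableSpace.comap (p n) ⊤] B' ∧ B =ᵐ[μ] B')
    {c : X → γ} (hc : IsLab μ c) :
    Tendsto (fun n => ent μ (fun x => (p n x, c x)) - ent μ (p n)) atTop (𝓝 0) := by
  rw [Metric.tendsto_atTop]
  intro ε hε
  -- choose delta
  set δ : ℝ := 1 - Real.exp (-(ε / 4)) with hδdef
  have hexp : Real.exp (-(ε / 4)) < 1 := by
    rw [Real.exp_lt_one_iff]; linarith
  have hδ : 0 < δ := by linarith
  have hδ1 : δ < 1 := by have := Real.exp_pos (-(ε / 4)); linarith
  have hlog1 : - Real.log (1 - δ) = ε / 4 := by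
    rw [hδdef, sub_sub_cancel, Real.log_exp]; ring
  have hlogδ : 0 ≤ - Real.log δ := by
    have := Real.log_nonpos hδ.le hδ1.le
    linarith
  -- absolute continuity
  have hfin : ∫⁻ x, ENNReal.ofReal (info μ c x) ∂μ ≠ ∞ := by
    have := hc.int.lintegral_lt_top
    exact this.ne
  obtain ⟨η1, hη1, hac⟩ := exists_pos_setLIntegral_lt_of_measure_lt hfin
    (ε := ENNReal.ofReal (ε / 4)) (by simpa using hε)
  obtain ⟨η2, hη2, hη21⟩ : ∃ η2 : ℝ, 0 < η2 ∧ ENNReal.ofReal η2 < η1 := by
    rcases eq_or_ne η1 ∞ with h | h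
    · exact ⟨1, one_pos, by rw [h]; exact ENNReal.ofReal_lt_top⟩
    · refine ⟨η1.toReal / 2, ?_, ?_⟩
      · have := ENNReal.toReal_pos hη1.ne' h
        linarith
      · have h1 := ENNReal.toReal_pos hη1.ne' h
        rw [ENNReal.ofReal_lt_iff_lt_toReal (by linarith) h]
        linarith
  set η := min η2 (ε / (4 * (- Real.log δ + 1))) with hηdef
  have hη : 0 < η := lt_min hη2 (by positivity)
  obtain ⟨n0, e, he⟩ := exists_approx hp hmono hgen hc η hη
  refine ⟨n0, fun n hn => ?_⟩
  have : Nonempty X := nonempty_of_prob μ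
  obtain ⟨k, hk⟩ := exists_factor (finer_le hmono hn)
  have hset : {x | c x ≠ (fun q => e (k q)) (p n x)} = {x | c x ≠ e (p n0 x)} := by
    ext x
    simp only [mem_ofPred_eq, hk x]
  have hf := fano (hp n) hc (fun q => e (k q)) δ hδ hδ1
  rw [hset, hlog1] at hf
  set Bd := {x | c x ≠ e (p n0 x)} with hBd
  have hBm : MeasurableSet Bd := by
    have hL := (lab_pair (hp n0) hc).1
    exact meas_set hL.meas hL.cnt {q : P n0 × γ | q.2 ≠ e q.1}
  have hμ : μ Bd < η1 := by
    calc μ Bd = ENNReal.ofReal (μ.real Bd) := by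
          rw [Measure.real, ENNReal.ofReal_toReal (measure_ne_top _ _)]
      _ ≤ ENNReal.ofReal η2 := ENNReal.ofReal_le_ofReal (he.trans (min_le_left _ _))
      _ < η1 := hη21
  have h1 : ∫ x in Bd, info μ c x ∂μ ≤ ε / 4 := by
    rw [integral_eq_lintegral_of_nonneg_ae (Eventually.of_forall fun x => info_nonneg c x)
      (meas_info hc.meas hc.cnt).aestronglyMeasurable]
    exact ENNReal.toReal_le_of_le_ofReal (by linarith) (hac Bd hμ).le
  have h2 : - Real.log δ * μ.real Bd ≤ ε / 4 := by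
    have h3 : μ.real Bd ≤ ε / (4 * (- Real.log δ + 1)) := he.trans (min_le_right _ _)
    calc - Real.log δ * μ.real Bd ≤ (- Real.log δ + 1) * (ε / (4 * (- Real.log δ + 1))) :=
          mul_le_mul (by linarith) h3 measureReal_nonneg (by linarith)
      _ = ε / 4 := by
          have : - Real.log δ + 1 ≠ 0 := by linarith
          field_simp
  have h3 : 0 ≤ ent μ (fun x => (p n x, c x)) - ent μ (p n) := by
    have h4 := (lab_pair (hp n) hc).1
    have h5 : Finer (fun x => (p n x, c x)) (p n) := fun x y h => (Prod.mk.inj h).1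
    have h6 := (lab_of_finer h4 h5).2
    linarith
  rw [Real.dist_eq, sub_zero, abs_of_nonneg h3]
  linarith

end Pool.Agent.TH480.FI
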