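import Pool.Agent.TH480.FI.FI_LAB

/-!
Entropy of a family of sets, small entropy lemma, finite entropy from integrable word length.
-/

set_option autoImplicit false
set_option linter.unusedSectionVars false
set_option linter.unusedSimpArgs false

namespace Pool.Agent.TH480.FI

open MeasureTheory Set Filter Pool.Agent.TH722.FI
open scoped Topology ENNReal

variable {X Y : Type*} [MeasurableSpace X] [MeasurableSpace Y] {μ : Measure X} [IsProbabilityMeasure μ]
  {α β α' β' γ κ : Type*}

lemma lab_const (c : γ) : IsLab μ (fun _ : X => c) ∧ ent μ (fun _ : X => c) = 0 := by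
  constructor
  · refine lab_finite (fun d => MeasurableSet.const _) ?_
    refine (Set.finite_singleton c).subset ?_
    rintro _ ⟨x, rfl⟩
    rfl
  · simp [ent, info, mass]

open Classical in
lemma lab_ind {Q : Set X} (hQ : MeasurableSet Q) :
    IsLab μ (fun x => decide (x ∈ Q)) ∧
      ent μ (fun x => decide (x ∈ Q)) = Real.binEntropy (μ.real Q) := by
  have e1 : {x | decide (x ∈ Q) = true} = Q := by ext x; simp
  have e2 : {x | decide (x ∈ Q) = false} = Qᶜ := by ext x; simp
  have hm : ∀ c : Bool, MeasurableSet {x | decide (x ∈ Q) = c} := by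
    intro c
    cases c with
    | false => rw [e2]; exact hQ.compl
    | true => rw [e1]; exact hQ
  have hf : (range (fun x => decide (x ∈ Q))).Finite := Set.toFinite _
  refine ⟨lab_finite hm hf, ?_⟩
  rw [(lab_shannon hm hf.countable).2, tsum_fintype, Fintype.sum_bool, e1, e2,
    probReal_compl_eq_one_sub hQ, Real.binEntropy_eq_negMulLog_add_negMulLog_one_sub]

theorem ent_sets (I : Finset κ) (Q : κ → Set X) (hQ : ∀ k, MeasurableSet (Q k)) :
    IsLab μ (fun x => {k : κ | k ∈ I ∧ x ∈ Q k}) ∧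
    ent μ (fun x => {k : κ | k ∈ I ∧ x ∈ Q k}) ≤ ∑ k ∈ I, Real.binEntropy (μ.real (Q k)) := by
  classical
  induction I using Finset.induction_on with
  | empty =>
    have h := lab_const (μ := μ) (X := X) (∅ : Set κ)
    have e : (fun x : X => {k : κ | k ∈ (∅ : Finset κ) ∧ x ∈ Q k}) = fun _ => (∅ : Set κ) := by
      funext x
      ext k
      simp
    rw [e]
    exact ⟨h.1, by simp [h.2]⟩
  | insert k I hk ih =>
    obtain ⟨h1, h2⟩ := ih
    obtain ⟨h3, h4⟩ := lab_ind (μ := μ) (hQ k)
    obtain ⟨h5, h6⟩ := lab_pair h1 h3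
    have hfin : Finer (fun x => ({j : κ | j ∈ I ∧ x ∈ Q j}, decide (x ∈ Q k)))
        (fun x => {j : κ | j ∈ insert k I ∧ x ∈ Q j}) := by
      intro x y hxy
      simp only [Prod.mk.injEq] at hxy
      obtain ⟨g1, g2⟩ := hxy
      have g3 : (x ∈ Q k) ↔ (y ∈ Q k) := by simpa using g2
      ext j
      have g4 : (j ∈ I ∧ x ∈ Q j) ↔ (j ∈ I ∧ y ∈ Q j) := by
        have := Set.ext_iff.1 g1 j
        simpa using this
      simp only [mem_ofPred_eq, Finset.mem_insert]
      by_cases hj : j = k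
      · subst hj; simp [g3]
      · simp only [hj, false_or]; exact g4
    obtain ⟨h7, h8⟩ := lab_of_finer h5 hfin
    refine ⟨h7, ?_⟩
    rw [Finset.sum_insert hk]
    linarith

section counting

lemma card_norm (r : ℕ) (S : Finset (FreeGroup (Fin r))) (n : ℕ) :
    (S.filter (fun g => g.norm = n)).card ≤ (2 * r) ^ n := by
  classical
  set T : Finset (FreeGroup (Fin r)) := S.filter (fun g => g.norm = n) with hT
  have hTn : ∀ g : T, (g : FreeGroup (Fin r)).toWord.length = n := fun g =>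
    (Finset.mem_filter.1 g.2).2
  have h1 : Fintype.card T ≤ Fintype.card (List.Vector (Fin r × Bool) n) := by
    refine Fintype.card_le_of_injective
      (fun g : T => (⟨(g : FreeGroup (Fin r)).toWord, hTn g⟩ : List.Vector (Fin r × Bool) n)) ?_
    intro g h hgh
    have h2 : (g : FreeGroup (Fin r)).toWord = (h : FreeGroup (Fin r)).toWord :=
      congrArg Subtype.val hgh
    exact Subtype.ext (FreeGroup.toWord_injective h2)
  rw [Fintype.card_coe, card_vector, Fintype.card_prod, Fintype.card_fin, Fintype.card_bool,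
    mul_comm r 2] at h1
  exact h1

/-- the growth constant -/
noncomputable def kap (r : ℕ) : ℝ := Real.log (2 * r + 1) + 1

lemma kap_pos (r : ℕ) : 1 ≤ kap r := by
  unfold kap
  have : 0 ≤ Real.log (2 * r + 1) := Real.log_nonneg (by
    have : (0 : ℝ) ≤ r := by positivity
    linarith)
  linarith

lemma exp_kap (r : ℕ) : Real.exp (- kap r) * (2 * r + 1) ≤ 1 / 2 := by
  have h0 : (0 : ℝ) < 2 * r + 1 := by positivity
  unfold kap
  have h1 : Real.exp (-(Real.log (2 * r + 1) + 1)) = (2 * r + 1 : ℝ)⁻¹ * Real.exp (-1) := by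
    rw [neg_add, Real.exp_add, Real.exp_neg, Real.exp_log h0]
  rw [h1]
  have h2 : Real.exp (-1) ≤ 1 / 2 := by
    rw [Real.exp_neg]
    have h3 := Real.add_one_le_exp (1 : ℝ)
    rw [inv_le_comm₀ (Real.exp_pos 1) (by norm_num)]
    linarith
  calc (2 * r + 1 : ℝ)⁻¹ * Real.exp (-1) * (2 * r + 1) = Real.exp (-1) := by field_simp
    _ ≤ 1 / 2 := h2

lemma sum_exp_le (r : ℕ) (S : Finset (FreeGroup (Fin r))) :
    ∑ g ∈ S, Real.exp (-(kap r * ((g.norm : ℝ) + 1))) ≤ 1 := by
  classical
  set M := S.sup (fun g => g.norm) + 1 with hM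
  have hmap : ∀ g ∈ S, g.norm ∈ Finset.range M := by
    intro g hg
    rw [Finset.mem_range, hM]
    have := Finset.le_sup (f := fun g : FreeGroup (Fin r) => g.norm) hg
    omega
  rw [← Finset.sum_fiberwise_of_maps_to hmap]
  have h1 : ∀ n ∈ Finset.range M, ∑ g ∈ S with g.norm = n,
      Real.exp (-(kap r * ((g.norm : ℝ) + 1))) ≤ (1 / 2) ^ n * (1 / 2) := by
    intro n _
    have e : ∑ g ∈ S with g.norm = n, Real.exp (-(kap r * ((g.norm : ℝ) + 1))) =
        ((S.filter (fun g => g.norm = n)).card : ℝ) * Real.exp (-(kap r * ((n : ℝ) + 1))) := by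
      rw [← nsmul_eq_mul, ← Finset.sum_const]
      refine Finset.sum_congr rfl fun g hg => ?_
      rw [(Finset.mem_filter.1 hg).2]
    rw [e]
    have h2 : ((S.filter (fun g => g.norm = n)).card : ℝ) ≤ (2 * r + 1 : ℝ) ^ n := by
      calc ((S.filter (fun g => g.norm = n)).card : ℝ) ≤ (((2 * r) ^ n : ℕ) : ℝ) := by
            exact_mod_cast card_norm r S n
        _ = (2 * r : ℝ) ^ n := by push_cast; ring
        _ ≤ _ := pow_le_pow_left₀ (by positivity) (by linarith) n
    have h3 : Real.exp (-(kap r * ((n : ℝ) + 1))) = Real.exp (- kap r) ^ n * Real.exp (- kap r) := by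
      rw [← Real.exp_nat_mul, ← Real.exp_add]
      congr 1; ring
    have h4 := exp_kap r
    have h5 : Real.exp (- kap r) ≤ 1 / 2 := by
      have : (0 : ℝ) ≤ r := by positivity
      nlinarith [Real.exp_pos (- kap r)]
    calc ((S.filter (fun g => g.norm = n)).card : ℝ) * Real.exp (-(kap r * ((n : ℝ) + 1)))
        ≤ (2 * r + 1 : ℝ) ^ n * (Real.exp (- kap r) ^ n * Real.exp (- kap r)) := by
          rw [h3]
          exact mul_le_mul_of_nonneg_right h2 (by positivity)
      _ = (Real.exp (- kap r) * (2 * r + 1)) ^ n * Real.exp (- kap r) := by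
          rw [mul_pow]; ring
      _ ≤ (1 / 2) ^ n * (1 / 2) :=
          mul_le_mul (pow_le_pow_left₀ (by positivity) h4 n) h5 (by positivity) (by positivity)
  refine (Finset.sum_le_sum h1).trans ?_
  rw [← Finset.sum_mul]
  have h6 : ∑ n ∈ Finset.range M, ((1 : ℝ) / 2) ^ n ≤ 2 := by
    rw [geom_sum_eq (by norm_num)]
    have : (0 : ℝ) ≤ (1 / 2) ^ M := by positivity
    rw [div_le_iff_of_neg (by norm_num)]
    linarith
  linarith

lemma negMulLog_le (m t : ℝ) (hm : 0 ≤ m) : Real.negMulLog m ≤ m * t + Real.exp (-t - 1) := by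
  rcases hm.eq_or_lt with h | h
  · rw [← h]
    simp only [Real.negMulLog_zero, zero_mul, zero_add]
    exact (Real.exp_pos _).le
  · have h1 := Real.log_le_sub_one_of_pos (div_pos (Real.exp_pos (-t - 1)) h)
    rw [Real.log_div (Real.exp_pos _).ne' h.ne', Real.log_exp] at h1
    have h2 := mul_le_mul_of_nonneg_left h1 h.le
    have h3 : m * (Real.exp (-t - 1) / m - 1) = Real.exp (-t - 1) - m := by
      field_simp
    rw [h3] at h2
    unfold Real.negMulLog
    linarith

lemma binEntropy_le (m t : ℝ) (hm : 0 ≤ m) (hm1 : m ≤ 1) :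
    Real.binEntropy m ≤ m * t + Real.exp (-t - 1) + m := by
  rw [Real.binEntropy_eq_negMulLog_add_negMulLog_one_sub]
  have h1 := negMulLog_le m t hm
  have h2 : Real.negMulLog (1 - m) ≤ m := by
    rcases hm1.eq_or_lt with h | h
    · rw [h]; simp
    · have h3 : 0 < 1 - m := by linarith
      have h4 := Real.log_le_sub_one_of_pos (inv_pos.2 h3)
      rw [Real.log_inv] at h4
      have h5 := mul_le_mul_of_nonneg_left h4 h3.le
      have h6 : (1 - m) * ((1 - m)⁻¹ - 1) = m := by
        field_simp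
        ring
      rw [h6] at h5
      unfold Real.negMulLog
      linarith
  linarith

end counting

theorem binEnt_small (r : ℕ) (ε : ℝ) (hε : 0 < ε) : ∃ δ > 0,
    ∀ (S : Finset (FreeGroup (Fin r))) (m : FreeGroup (Fin r) → ℝ),
      (∀ g, 0 ≤ m g) → (∀ g, m g ≤ 1) → ∑ g ∈ S, m g * ((g.norm : ℝ) + 1) ≤ δ →
      ∑ g ∈ S, Real.binEntropy (m g) ≤ ε := by
  -- choose theta with exp(-theta) ≤ ε/2
  obtain ⟨θ, hθ0, hθ⟩ : ∃ θ : ℝ, 0 ≤ θ ∧ Real.exp (-θ) ≤ ε / 2 := by
    refine ⟨max 0 (-Real.log (ε / 2)), le_max_left _ _, ?_⟩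
    have h1 : -(max 0 (-Real.log (ε / 2))) ≤ Real.log (ε / 2) := by
      have := le_max_right 0 (-Real.log (ε / 2))
      linarith
    calc Real.exp (-(max 0 (-Real.log (ε / 2)))) ≤ Real.exp (Real.log (ε / 2)) :=
          Real.exp_le_exp.2 h1
      _ = ε / 2 := Real.exp_log (by linarith)
  have hk := kap_pos r
  refine ⟨ε / (2 * (kap r + θ + 1)), by positivity, ?_⟩
  intro S m hm0 hm1 hsum
  have h1 : ∀ g ∈ S, Real.binEntropy (m g) ≤ (kap r + θ + 1) * (m g * ((g.norm : ℝ) + 1)) +
      Real.exp (-θ) * Real.exp (-(kap r * ((g.norm : ℝ) + 1))) := by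
    intro g _
    have h2 := binEntropy_le (m g) (kap r * ((g.norm : ℝ) + 1) + θ) (hm0 g) (hm1 g)
    have h3 : Real.exp (-(kap r * ((g.norm : ℝ) + 1) + θ) - 1) ≤
        Real.exp (-θ) * Real.exp (-(kap r * ((g.norm : ℝ) + 1))) := by
      rw [← Real.exp_add]
      exact Real.exp_le_exp.2 (by linarith)
    have h4 : m g * (kap r * ((g.norm : ℝ) + 1) + θ) + m g ≤
        (kap r + θ + 1) * (m g * ((g.norm : ℝ) + 1)) := by
      have h5 : 0 ≤ m g * (g.norm : ℝ) := mul_nonneg (hm0 g) (by positivity)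
      nlinarith
    linarith
  have h2 := Finset.sum_le_sum h1
  rw [Finset.sum_add_distrib, ← Finset.mul_sum, ← Finset.mul_sum] at h2
  have h3 : (kap r + θ + 1) * ∑ g ∈ S, m g * ((g.norm : ℝ) + 1) ≤ ε / 2 := by
    calc (kap r + θ + 1) * ∑ g ∈ S, m g * ((g.norm : ℝ) + 1) ≤
          (kap r + θ + 1) * (ε / (2 * (kap r + θ + 1))) :=
          mul_le_mul_of_nonneg_left hsum (by linarith)
      _ = ε / 2 := by
        have : kap r + θ + 1 ≠ 0 := by linarith
        field_simp
  have h4 : Real.exp (-θ) * ∑ g ∈ S, Real.exp (-(kap r * ((g.norm : ℝ) + 1))) ≤ ε / 2 := by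
    calc Real.exp (-θ) * ∑ g ∈ S, Real.exp (-(kap r * ((g.norm : ℝ) + 1))) ≤
          Real.exp (-θ) * 1 := mul_le_mul_of_nonneg_left (sum_exp_le r S) (Real.exp_pos _).le
      _ ≤ ε / 2 := by linarith
  linarith

theorem norm_ent (r : ℕ) (b : X → FreeGroup (Fin r)) (hb : ∀ c, MeasurableSet {x | b x = c})
    (hi : Integrable (fun x => ((b x).norm : ℝ)) μ) : IsLab μ b := by
  have hcount : Countable (FreeGroup (Fin r)) := FreeGroup.toWord_injective.countable
  have hc : (range b).Countable := Set.to_countable _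
  rw [(lab_shannon hb hc).1]
  have h1 : Integrable (fun x => kap r * (((b x).norm : ℝ) + 1)) μ :=
    (hi.add (integrable_const 1)).const_mul _
  rw [← integrableOn_univ] at h1
  have h2 := (integrableOn_iff (μ := μ) hb hc univ MeasurableSet.univ
    (fun c => kap r * ((c.norm : ℝ) + 1))).1 h1
  have h3 : Summable (fun c : FreeGroup (Fin r) => Real.exp (-(kap r * ((c.norm : ℝ) + 1)))) :=
    summable_of_sum_le (fun c => (Real.exp_pos _).le) (sum_exp_le r)
  refine Summable.of_nonneg_of_le (fun c => Real.negMulLog_nonneg measureReal_nonneg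
    (real_le_one _)) (fun c => ?_) (h2.add h3)
  have h4 := negMulLog_le (μ.real {x | b x = c}) (kap r * ((c.norm : ℝ) + 1)) measureReal_nonneg
  have h5 : Real.exp (-(kap r * ((c.norm : ℝ) + 1)) - 1) ≤
      Real.exp (-(kap r * ((c.norm : ℝ) + 1))) := Real.exp_le_exp.2 (by linarith)
  have h6 : {y | y ∈ univ ∧ b y = c} = {y | b y = c} := by simp
  rw [h6]
  linarith

end Pool.Agent.TH480.FI
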