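import Pool.Agent.TH480.FI.FI_JMONO

/-!
Basic facts on the restricted mutual information.
-/

set_option autoImplicit false
set_option linter.unusedSectionVars false
set_option linter.unusedSimpArgs false

namespace Pool.Agent.TH480.FI

open MeasureTheory Set Filter Pool.Agent.TH722.FI
open scoped Topology ENNReal

variable {X Y : Type*} [MeasurableSpace X] [MeasurableSpace Y] {μ : Measure X} [IsProbabilityMeasure μ]
  {α β α' β' γ κ : Type*}

theorem J_nonneg (D : Set X) (hD : MeasurableSet D) {a : X → α} {b : X → β}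
    (ha : IsLab μ a) (hb : IsLab μ b) (hDa : ∀ x y, a x = a y → (x ∈ D ↔ y ∈ D))
    (hDb : ∀ x y, b x = b y → (x ∈ D ↔ y ∈ D)) : 0 ≤ J μ D a b := by
  obtain ⟨hs, ht⟩ := prod_P (μ := μ) ha.meas ha.cnt hb.meas hb.cnt D D hD hD
  set Q : α × β → ℝ := fun q => μ.real {y | y ∈ D ∧ a y = q.1} * μ.real {y | y ∈ D ∧ b y = q.2}
    with hQ
  have hQ0 : ∀ q, 0 ≤ Q q := fun q => mul_nonneg measureReal_nonneg measureReal_nonneg
  have hQx : ∀ x ∈ D, Q (a x, b x) = mass μ a x * mass μ b x := by
    intro x hx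
    have e1 : {y | y ∈ D ∧ a y = a x} = {y | a y = a x} := by
      ext y
      simp only [mem_ofPred_eq, and_iff_right_iff_imp]
      intro h
      exact (hDa y x h).2 hx
    have e2 : {y | y ∈ D ∧ b y = b x} = {y | b y = b x} := by
      ext y
      simp only [mem_ofPred_eq, and_iff_right_iff_imp]
      intro h
      exact (hDb y x h).2 hx
    simp only [hQ, e1, e2, mass]
  have hjx : ∀ x, μ.real {y | y ∈ D ∧ (a y, b y) = (a x, b x)} = jmass μ D a b x := by
    intro x
    simp only [jmass, Prod.mk.injEq]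
  have hall : ∀ᵐ x ∂(μ.restrict D), x ∈ D ∧ 0 < jmass μ D a b x ∧
      0 < mass μ a x ∧ 0 < mass μ b x := by
    filter_upwards [ae_restrict_mem hD, ae_jmass_pos ha hb D hD,
      ae_mass_pos' ha.meas ha.cnt D, ae_mass_pos' hb.meas hb.cnt D] with x h1 h2 h3 h4
    exact ⟨h1, h2, h3, h4⟩
  have hlog : ∀ᵐ x ∂(μ.restrict D), - jfun μ D a b x =
      Real.log (Q (a x, b x) / μ.real {y | y ∈ D ∧ (a y, b y) = (a x, b x)}) := by
    filter_upwards [hall] with x hx
    obtain ⟨h0, h1, h3, h4⟩ := hx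
    rw [hjx, hQx x h0, Real.log_div (by positivity) h1.ne', Real.log_mul h3.ne' h4.ne',
      jfun_eq h1 h3 h4]
    unfold info
    ring
  have hpos : ∀ᵐ x ∂(μ.restrict D), 0 < Q (a x, b x) := by
    filter_upwards [hall] with x hx
    obtain ⟨h0, h1, h3, h4⟩ := hx
    rw [hQx x h0]
    positivity
  have i1 := jfun_integrable D hD ha hb
  have hint : IntegrableOn (fun x => - jfun μ D a b x) D μ := i1.neg
  have hg := gibbs (μ := μ) D hD (fun x => (a x, b x)) (meas_pair ha.meas hb.meas)
    (cnt_pair ha.cnt hb.cnt) Q hQ0 hs hpos (hint.congr_fun_ae hlog)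
  rw [← integral_congr_ae hlog, integral_neg, ht] at hg
  have h1 : μ.real D * μ.real D ≤ μ.real D := by
    have h2 := measureReal_nonneg (μ := μ) (s := D)
    have h3 : μ.real D ≤ 1 := real_le_one D
    nlinarith
  unfold J
  linarith

theorem J_loss (E : Set X) (hE : MeasurableSet E) {a : X → α} {b : X → β}
    (ha : IsLab μ a) (hb : IsLab μ b) :
    J μ univ a b - (μ.real Eᶜ + ∫ x in Eᶜ, info μ a x ∂μ) ≤ J μ E a b := by
  have i0 := jfun_integrable univ MeasurableSet.univ ha hb
  rw [integrableOn_univ] at i0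
  have iE := jfun_integrable E hE ha hb
  have hsplit : J μ univ a b = ∫ x in E, jfun μ univ a b x ∂μ + ∫ x in Eᶜ, jfun μ univ a b x ∂μ := by
    unfold J
    rw [Measure.restrict_univ, integral_add_compl hE i0]
  have hju : ∀ x, jmass μ univ a b x ≤ mass μ b x := by
    intro x
    unfold jmass mass
    refine measureReal_mono ?_ (measure_ne_top _ _)
    rintro y ⟨_, _, h⟩
    exact h
  have hposu : ∀ᵐ x ∂μ, 0 < jmass μ univ a b x := by
    have := ae_jmass_pos ha hb univ MeasurableSet.univ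
    rwa [Measure.restrict_univ] at this
  have h1 : ∫ x in Eᶜ, jfun μ univ a b x ∂μ ≤ ∫ x in Eᶜ, info μ a x ∂μ := by
    refine integral_mono_ae i0.integrableOn ha.int.integrableOn ?_
    filter_upwards [ae_restrict_of_ae hposu, ae_mass_pos' ha.meas ha.cnt Eᶜ,
      ae_mass_pos' hb.meas hb.cnt Eᶜ] with x h1 h2 h3
    rw [jfun_eq h1 h2 h3]
    have := Real.log_le_log h1 (hju x)
    have e : info μ b x = - Real.log (mass μ b x) := rfl
    linarith
  have h2 : ∫ x in E, jfun μ univ a b x ∂μ - J μ E a b ≤ 1 - μ.real E := by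
    obtain ⟨hs, ht⟩ := sum_P (μ := μ) (meas_pair ha.meas hb.meas) (cnt_pair ha.cnt hb.cnt) univ
      MeasurableSet.univ
    set Q : α × β → ℝ := fun q => μ.real {y | y ∈ univ ∧ (a y, b y) = q} with hQ
    have hQ0 : ∀ q, 0 ≤ Q q := fun q => measureReal_nonneg
    have hQx : ∀ x, Q (a x, b x) = jmass μ univ a b x := by
      intro x
      simp only [hQ, jmass, Prod.mk.injEq]
    have hjx : ∀ x, μ.real {y | y ∈ E ∧ (a y, b y) = (a x, b x)} = jmass μ E a b x := by
      intro x
      simp only [jmass, Prod.mk.injEq]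
    have hall : ∀ᵐ x ∂(μ.restrict E), 0 < jmass μ univ a b x ∧ 0 < jmass μ E a b x ∧
        0 < mass μ a x ∧ 0 < mass μ b x := by
      filter_upwards [ae_restrict_of_ae hposu, ae_jmass_pos ha hb E hE,
        ae_mass_pos' ha.meas ha.cnt E, ae_mass_pos' hb.meas hb.cnt E] with x h1 h2 h3 h4
      exact ⟨h1, h2, h3, h4⟩
    have hlog : ∀ᵐ x ∂(μ.restrict E), jfun μ univ a b x - jfun μ E a b x =
        Real.log (Q (a x, b x) / μ.real {y | y ∈ E ∧ (a y, b y) = (a x, b x)}) := by
      filter_upwards [hall] with x hx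
      obtain ⟨h0, h1, h3, h4⟩ := hx
      rw [hjx, hQx x, Real.log_div h0.ne' h1.ne', jfun_eq h1 h3 h4, jfun_eq h0 h3 h4]
      ring
    have hpos : ∀ᵐ x ∂(μ.restrict E), 0 < Q (a x, b x) := by
      filter_upwards [hall] with x hx
      rw [hQx x]
      exact hx.1
    have hint : IntegrableOn (fun x => jfun μ univ a b x - jfun μ E a b x) E μ :=
      i0.integrableOn.sub iE
    have hg := gibbs (μ := μ) E hE (fun x => (a x, b x)) (meas_pair ha.meas hb.meas)
      (cnt_pair ha.cnt hb.cnt) Q hQ0 hs hpos (hint.congr_fun_ae hlog)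
    rw [← integral_congr_ae hlog, integral_sub i0.integrableOn iE, ht] at hg
    have h3 : μ.real (univ : Set X) = 1 := by simp
    rw [h3] at hg
    exact hg
  have h3 : μ.real Eᶜ = 1 - μ.real E := probReal_compl_eq_one_sub hE
  rw [hsplit, h3]
  linarith

theorem J_univ {a : X → α} {b : X → β} (ha : IsLab μ a) (hb : IsLab μ b) :
    J μ univ a b = ent μ a + ent μ b - ent μ (fun x => (a x, b x)) := by
  obtain ⟨hL, _⟩ := lab_pair ha hb
  have hposu : ∀ᵐ x ∂μ, 0 < jmass μ univ a b x := by
    have := ae_jmass_pos ha hb univ MeasurableSet.univ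
    rwa [Measure.restrict_univ] at this
  have hjm : ∀ x, jmass μ univ a b x = mass μ (fun x => (a x, b x)) x := by
    intro x
    simp [jmass, mass]
  have e : ∀ᵐ x ∂μ, jfun μ univ a b x = info μ a x + info μ b x - info μ (fun x => (a x, b x)) x := by
    filter_upwards [hposu, ae_mass_pos ha.meas ha.cnt, ae_mass_pos hb.meas hb.cnt] with x h1 h2 h3
    rw [jfun_eq h1 h2 h3, hjm]
    unfold info
    ring
  have h7 := integral_sub (f := fun x => info μ a x + info μ b x)
    (g := info μ (fun x => (a x, b x))) (ha.int.add hb.int) hL.int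
  rw [integral_add ha.int hb.int] at h7
  unfold J ent
  rw [Measure.restrict_univ, integral_congr_ae e, h7]

theorem J_symm (D : Set X) {a : X → α} {b : X → β} : J μ D a b = J μ D b a := by
  have h : ∀ x, jfun μ D a b x = jfun μ D b a x := by
    intro x
    have e : {y | y ∈ D ∧ a y = a x ∧ b y = b x} = {y | y ∈ D ∧ b y = b x ∧ a y = a x} := by
      ext y
      simp only [mem_ofPred_eq]
      tauto
    unfold jfun jmass
    rw [mul_comm (mass μ a x), e]
  unfold J
  simp_rw [h]

theorem J_map (T : X ≃ᵐ X) (hT : MeasurePreserving T μ μ) (D : Set X) {a : X → α} {b : X → β} :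
    J μ (T ⁻¹' D) (fun x => a (T x)) (fun x => b (T x)) = J μ D a b := by
  have hr : ∀ S : Set X, μ.real (T ⁻¹' S) = μ.real S := by
    intro S
    exact congrArg ENNReal.toReal (hT.measure_preimage_equiv S)
  have h1 : ∀ x, jfun μ (T ⁻¹' D) (fun x => a (T x)) (fun x => b (T x)) x =
      jfun μ D a b (T x) := by
    intro x
    unfold jfun jmass mass
    rw [← hr {y | y ∈ D ∧ a y = a (T x) ∧ b y = b (T x)}, ← hr {y | a y = a (T x)},
      ← hr {y | b y = b (T x)}]
    rfl
  unfold J
  simp_rw [h1]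
  exact hT.setIntegral_preimage_emb T.measurableEmbedding _ _

end Pool.Agent.TH480.FI
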